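import Pool.Agent.X23.L3.Stm

namespace Pool.Agent.X279.L3

open Pool.Agent.X23.L3

theorem a_self_pos {n : ℕ} (X : Sys n) (i : Fin n) : 0 < X.a i ⬝ᵥ X.a i := by
  have h1 := X.ho i
  have h2 := X.hy i
  have hne : X.a i ≠ 0 := by
    intro h
    rw [h, zero_dotProduct] at h1 h2
    linarith
  have h0 : 0 ≤ X.a i ⬝ᵥ X.a i := Finset.sum_nonneg fun k _ => mul_self_nonneg _
  rcases lt_or_eq_of_le h0 with h | h
  · exact h
  · exact absurd (dotProduct_self_eq_zero.1 h.symm) hne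

theorem exists_orth (f : Fin 3 → ℝ) : ∃ v : Fin 3 → ℝ, v ≠ 0 ∧ f ⬝ᵥ v = 0 := by
  by_cases h : f 0 = 0 ∧ f 1 = 0
  · refine ⟨![1, 0, 0], ?_, ?_⟩
    · intro h0
      have := congrFun h0 0
      simp at this
    · simp [dotProduct, Fin.sum_univ_three, h.1]
  · refine ⟨![f 1, -f 0, 0], ?_, ?_⟩
    · intro h0
      apply h
      have h1 := congrFun h0 0
      have h2 := congrFun h0 1
      simp at h1 h2
      exact ⟨h2, h1⟩
    · simp [dotProduct, Fin.sum_univ_three]
      ring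

/-- the constraints of `Q'` -/
def cc {n : ℕ} (X : Sys n) (S : Finset (Fin n)) (f : Fin 3 → ℝ) : Option S → Fin 3 → ℝ
  | none => f
  | some s => X.a s

def dd {n : ℕ} (X : Sys n) (S : Finset (Fin n)) (T : ℝ) : Option S → ℝ
  | none => T
  | some s => X.b s

theorem feas_iff {n : ℕ} (X : Sys n) (S : Finset (Fin n)) (f : Fin 3 → ℝ) (T : ℝ)
    (x : Fin 3 → ℝ) : (∀ j, cc X S f j ⬝ᵥ x ≤ dd X S T j) ↔
      (∀ s ∈ S, X.a s ⬝ᵥ x ≤ X.b s) ∧ f ⬝ᵥ x ≤ T := by
  constructor
  · intro h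
    exact ⟨fun s hs => h (some ⟨s, hs⟩), h none⟩
  · rintro ⟨h1, h2⟩ (_ | s)
    · exact h2
    · exact h1 s s.2

theorem seg_le {a x y : Fin 3 → ℝ} {b t : ℝ} (h0 : 0 ≤ t) (h1 : t ≤ 1) (hx : a ⬝ᵥ x ≤ b)
    (hy : a ⬝ᵥ y ≤ b) : a ⬝ᵥ (x + t • (y - x)) ≤ b := by
  rw [dotProduct_add, dotProduct_smul, dotProduct_sub, smul_eq_mul]
  nlinarith

/-- a small step from `y i` in the direction `a i` -/
theorem step_out {n : ℕ} (X : Sys n) (S : Finset (Fin n)) {i : Fin n} (hi : i ∉ S) :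
    ∃ x, (∀ s ∈ S, X.a s ⬝ᵥ x ≤ X.b s) ∧ X.b i < X.a i ⬝ᵥ x := by
  classical
  -- choose epsilon below all the ratios
  have hex : ∃ ε : ℝ, 0 < ε ∧ ∀ s ∈ S, ε * (X.a s ⬝ᵥ X.a i) ≤ X.b s - X.a s ⬝ᵥ X.y i := by
    have : ∀ U : Finset (Fin n), U ⊆ S →
        ∃ ε : ℝ, 0 < ε ∧ ∀ s ∈ U, ε * (X.a s ⬝ᵥ X.a i) ≤ X.b s - X.a s ⬝ᵥ X.y i := by
      intro U
      induction U using Finset.induction_on with
      | empty => intro _; exact ⟨1, one_pos, by simp⟩
      | insert s U hs ih =>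
        intro hU
        obtain ⟨ε, hε, h⟩ := ih (fun x hx => hU (Finset.mem_insert_of_mem hx))
        have hpos : 0 < X.b s - X.a s ⬝ᵥ X.y i := by
          have hsi : s ≠ i := by
            rintro rfl
            exact hi (hU (Finset.mem_insert_self _ _))
          have := X.hy2 i s hsi
          linarith
        set w := X.a s ⬝ᵥ X.a i
        set r := X.b s - X.a s ⬝ᵥ X.y i
        have hden : 0 < |w| + 1 := by positivity
        refine ⟨min ε (r / (|w| + 1)), lt_min hε (div_pos hpos hden), ?_⟩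
        have hmin0 : 0 < min ε (r / (|w| + 1)) := lt_min hε (div_pos hpos hden)
        intro t ht
        rw [Finset.mem_insert] at ht
        rcases ht with rfl | ht
        · have h1 : min ε (r / (|w| + 1)) * w ≤ min ε (r / (|w| + 1)) * (|w| + 1) := by
            apply mul_le_mul_of_nonneg_left _ hmin0.le
            linarith [le_abs_self w]
          have h2 : min ε (r / (|w| + 1)) * (|w| + 1) ≤ r / (|w| + 1) * (|w| + 1) :=
            mul_le_mul_of_nonneg_right (min_le_right _ _) hden.le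
          rw [div_mul_cancel₀ _ hden.ne'] at h2
          exact h1.trans h2
        · have h3 := h t ht
          rcases le_or_gt 0 (X.a t ⬝ᵥ X.a i) with h4 | h4
          · exact (mul_le_mul_of_nonneg_right (min_le_left _ _) h4).trans h3
          · have h5 : 0 < X.b t - X.a t ⬝ᵥ X.y i := by
              have hti : t ≠ i := by
                rintro rfl
                exact hi (hU (Finset.mem_insert_of_mem ht))
              have := X.hy2 i t hti
              linarith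
            have h6 : min ε (r / (|w| + 1)) * (X.a t ⬝ᵥ X.a i) ≤ 0 :=
              mul_nonpos_of_nonneg_of_nonpos hmin0.le h4.le
            linarith
    exact this S (fun _ h => h)
  obtain ⟨ε, hε, h⟩ := hex
  refine ⟨X.y i + ε • X.a i, ?_, ?_⟩
  · intro s hs
    rw [dotProduct_add, dotProduct_smul, smul_eq_mul]
    have := h s hs
    linarith
  · rw [dotProduct_add, dotProduct_smul, smul_eq_mul, X.hy i]
    have := mul_pos hε (a_self_pos X i)
    linarith

theorem t_PT1 (hSEG : S_SEG) (hA : S_EXTA) (hB : S_EXTB) (hF : S_FAC) : S_PT1 := by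
  intro n X S κ R hfam hspan f T hf hbd r
  classical
  have hbd' : ∃ C : ℝ, ∀ x, (∀ j, cc X S f j ⬝ᵥ x ≤ dd X S T j) → ∀ k, |x k| ≤ C := by
    obtain ⟨C, hC⟩ := hbd
    exact ⟨C, fun x hx => hC x ((feas_iff X S f T x).1 hx).1 ((feas_iff X S f T x).1 hx).2⟩
  have hne' : ∃ x, ∀ j, cc X S f j ⬝ᵥ x ≤ dd X S T j :=
    ⟨X.o, (feas_iff X S f T X.o).2 ⟨fun s _ => (X.ho s).le, (hf X.o fun i => (X.ho i).le).le⟩⟩
  by_cases hcase : ∀ x, (∀ s ∈ S, X.a s ⬝ᵥ x ≤ X.b s) → (∃ i ∈ R r, X.b i < X.a i ⬝ᵥ x) →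
      f ⬝ᵥ x < T
  · obtain ⟨i, hi⟩ := hfam.ne r
    obtain ⟨x, hx1, hx2⟩ := step_out X S (hfam.out r i hi)
    obtain ⟨q, hq1, hq2, hq3⟩ := hA (Option S) (cc X S f) (dd X S T) hbd' hne' (X.a i)
    have hq0 := (feas_iff X S f T q).1 hq1
    have hxf := hcase x hx1 ⟨i, hi, hx2⟩
    have h1 : X.b i < X.a i ⬝ᵥ q :=
      hx2.trans_le (hq2 x ((feas_iff X S f T x).2 ⟨hx1, hxf.le⟩))
    have h2 := hcase q hq0.1 ⟨i, hi, h1⟩
    obtain ⟨j, hj, hlex⟩ := hF (Option S) (cc X S f) (dd X S T) q hq1 hq3 f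
    rcases j with _ | s
    · exact absurd hj (ne_of_lt h2)
    · refine ⟨q, s, s.2, hq0.1, hq0.2, hj, ⟨i, hi, h1⟩, ?_⟩
      rcases hlex with hlex | hlex
      · left
        intro x hx hxT hxs hxq
        exact hlex x ((feas_iff X S f T x).2 ⟨hx, hxT⟩) hxs hxq
      · right
        intro x hx hxT hxs hxq
        exact hlex x ((feas_iff X S f T x).2 ⟨hx, hxT⟩) hxs hxq
  · push Not at hcase
    obtain ⟨x0, hx0, hx0i, hx0T⟩ := hcase
    obtain ⟨q, hq1, hq2, hq3⟩ := hB (Option S) (cc X S f) (dd X S T) hbd' hne' f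
    have hq0 := (feas_iff X S f T q).1 hq1
    -- f q = T
    have hfo := hf X.o fun i => (X.ho i).le
    have hfq : f ⬝ᵥ q = T := by
      have hden : 0 < f ⬝ᵥ x0 - f ⬝ᵥ X.o := by linarith
      set t := (T - f ⬝ᵥ X.o) / (f ⬝ᵥ x0 - f ⬝ᵥ X.o) with ht
      have ht0 : 0 ≤ t := div_nonneg (by linarith) hden.le
      have ht1 : t ≤ 1 := by rw [ht, div_le_one hden]; linarith
      set z := X.o + t • (x0 - X.o) with hz
      have hzT : f ⬝ᵥ z = T := by
        rw [hz, dotProduct_add, dotProduct_smul, dotProduct_sub, smul_eq_mul, ht,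
          div_mul_cancel₀ _ hden.ne']
        ring
      have hzS : ∀ s ∈ S, X.a s ⬝ᵥ z ≤ X.b s := fun s hs =>
        seg_le ht0 ht1 (X.ho s).le (hx0 s hs)
      by_cases hzq : z = q
      · rw [← hzq, hzT]
      · have h1 := hq2 z ((feas_iff X S f T z).2 ⟨hzS, hzT.le⟩) hzq
        rcases h1 with h1 | ⟨h1, -⟩
        · rw [dotProduct_sub, hzT] at h1
          linarith [hq0.2]
        · rw [dotProduct_sub, hzT] at h1
          linarith
    -- a tight constraint in S
    obtain ⟨s, hs, hsq⟩ : ∃ s ∈ S, X.a s ⬝ᵥ q = X.b s := by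
      by_contra hno
      push Not at hno
      obtain ⟨v, hv0, hv⟩ := exists_orth f
      apply hv0
      apply hq3 v
      rintro (_ | s) hj
      · exact hv
      · exact absurd hj (hno s s.2)
    refine ⟨q, s, hs, hq0.1, hq0.2, hsq, ?_, ?_⟩
    · have hqP : ∃ k, X.b k < X.a k ⬝ᵥ q := by
        by_contra hno
        push Not at hno
        have := hf q hno
        linarith
      obtain ⟨k, hk⟩ := hqP
      refine ⟨k, ?_, hk⟩
      refine hSEG n X S (R r) (fun k hk l hl ht => hfam.cl r k l hk hl ht) x0 q hx0 hq0.1 ?_ hx0i k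
        hk
      intro t ht0 ht1
      by_contra hno
      push Not at hno
      have h1 := hf _ hno
      rw [dotProduct_add, dotProduct_smul, dotProduct_sub, smul_eq_mul, hfq] at h1
      nlinarith
    · left
      intro x hx hxT _ hxq
      exact hq2 x ((feas_iff X S f T x).2 ⟨hx, hxT⟩) hxq

end Pool.Agent.X279.L3
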