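import Pool.Agent.X23.L3.Stm
import Pool.Agent.H168DD.TB

namespace Pool.Agent.X279.L3

open Pool.Agent.X23.L3

theorem touch_symm {n : ℕ} {X : Sys n} {i j : Fin n} (h : touch X i j) : touch X j i := by
  obtain ⟨x, h1, h2, h3⟩ := h
  exact ⟨x, h1, h3, h2⟩

/-- the contact graph of the facets -/
def gr {n : ℕ} (X : Sys n) : SimpleGraph (Fin n) where
  Adj i j := i ≠ j ∧ touch X i j
  symm := ⟨fun _ _ h => ⟨h.1.symm, touch_symm h.2⟩⟩
  loopless := ⟨fun _ h => h.1 rfl⟩

theorem three_le {n : ℕ} (X : Sys n) : 3 ≤ n := by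
  by_contra hn
  have hlt : Module.finrank ℝ (Fin n → ℝ) < Module.finrank ℝ (Fin 3 → ℝ) := by
    rw [Module.finrank_fin_fun, Module.finrank_fin_fun]; omega
  have h := LinearMap.ker_ne_bot_of_finrank_lt (f := Matrix.mulVecLin (Matrix.of X.a)) hlt
  obtain ⟨v, hv, hv0⟩ := (Submodule.ne_bot_iff _).1 h
  rw [LinearMap.mem_ker] at hv
  have hv1 : ∀ i, X.a i ⬝ᵥ v = 0 := fun i => congrFun hv i
  obtain ⟨C, hC⟩ := X.bd
  apply hv0
  ext k
  by_contra hk
  have hk' : v k ≠ 0 := hk
  set t : ℝ := (|C| + 1 + |X.o k|) / |v k| with ht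
  have hpos : 0 < |v k| := abs_pos.2 hk'
  have h1 := hC (X.o + t • v) (fun i => by
    rw [dotProduct_add, dotProduct_smul, hv1 i, smul_zero, add_zero]
    exact (X.ho i).le) k
  rw [Pi.add_apply, Pi.smul_apply, smul_eq_mul] at h1
  have h2 : |t * v k| = |C| + 1 + |X.o k| := by
    rw [abs_mul, abs_of_nonneg (by positivity : 0 ≤ t), ht, div_mul_cancel₀ _ hpos.ne']
  have h3 : |t * v k| ≤ |X.o k + t * v k| + |X.o k| := by
    have : t * v k = (X.o k + t * v k) - X.o k := by ring
    calc |t * v k| = |(X.o k + t * v k) - X.o k| := by rw [← this]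
      _ ≤ _ := abs_sub _ _
  have := le_abs_self C
  linarith

/-- the bound for closed families -/
theorem fam_bound (hNP : S_NP) (hPT2 : S_PT2) {n : ℕ} (X : Sys n) (A : Finset (Fin n))
    (F : Finset (Finset (Fin n))) (hne : ∀ O ∈ F, O.Nonempty)
    (hdisj : ∀ O ∈ F, ∀ O' ∈ F, O ≠ O' → Disjoint O O')
    (hout : ∀ O ∈ F, ∀ x ∈ O, x ∉ A)
    (hcl : ∀ O ∈ F, ∀ x ∈ O, ∀ y, touch X x y → y ∈ O ∨ y ∈ A) :
    F.card ≤ A.card + n / 3 := by
  classical
  have hfam : Fam X A (fun r : F => (↑r.1 : Set (Fin n))) := by
    refine ⟨fun r => hne r.1 r.2, fun r i hi => hout r.1 r.2 i hi, ?_, ?_⟩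
    · intro r r' i hi hi'
      by_contra hrr
      have : r.1 ≠ r'.1 := fun h => hrr (Subtype.ext h)
      exact Finset.disjoint_left.1 (hdisj _ r.2 _ r'.2 this) hi hi'
    · intro r k l hk hl ht
      rcases hcl r.1 r.2 k hk l ht with h | h
      · exact h
      · exact absurd h hl
  have h3 := three_le X
  have hsum : F.card + A.card ≤ n := by
    have h1 : (F.biUnion id).card = ∑ O ∈ F, O.card :=
      Finset.card_biUnion (fun O hO O' hO' h => hdisj O hO O' hO' h)
    have h2 : F.card ≤ ∑ O ∈ F, O.card := by
      calc F.card = ∑ O ∈ F, 1 := by simp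
        _ ≤ _ := Finset.sum_le_sum fun O hO => (hne O hO).card_pos
    have h4 : Disjoint (F.biUnion id) A := by
      rw [Finset.disjoint_left]
      intro x hx
      obtain ⟨O, hO, hxO⟩ := Finset.mem_biUnion.1 hx
      exact hout O hO x hxO
    have h5 := Finset.card_le_univ (F.biUnion id ∪ A)
    rw [Finset.card_union_of_disjoint h4, Fintype.card_fin] at h5
    omega
  have hcard : Fintype.card F = F.card := Fintype.card_coe F
  by_cases hspan : ∀ v : Fin 3 → ℝ, (∀ s ∈ A, X.a s ⬝ᵥ v = 0) → v = 0
  · have := hPT2 n X A F _ hfam hspan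
    rw [hcard] at this
    omega
  · push Not at hspan
    obtain ⟨v, hv, hv0⟩ := hspan
    obtain ⟨h1, h2⟩ := hNP n X A F _ hfam v hv0 hv
    rw [hcard] at h1 h2
    rcases Finset.eq_empty_or_nonempty A with h | h
    · have := h2 h
      omega
    · have := h.card_pos
      omega

theorem t_TB (hNP : S_NP) (hPT2 : S_PT2) : S_TB := by
  intro n X
  classical
  have h3 := three_le X
  obtain ⟨U, m, hU, hm⟩ : ∃ (U : Finset (Fin n)) (m : Fin n → Fin n), U.card ≤ n / 3 ∧
      ∀ x, x ∉ U → m x ∉ U ∧ m (m x) = x ∧ (gr X).Adj x (m x) := by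
    have key : ∀ (A : Finset (Fin n)) (F : Finset (Finset (Fin n))), A ⊆ Finset.univ →
        (∀ O ∈ F, Odd O.card) → (∀ O ∈ F, ∀ O' ∈ F, O ≠ O' → Disjoint O O') →
        (∀ O ∈ F, O ⊆ Finset.univ \ A) →
        (∀ O ∈ F, ∀ x ∈ O, ∀ y ∈ Finset.univ, (gr X).Adj x y → y ∈ O ∨ y ∈ A) →
        (∀ O ∈ F, O.Nonempty) ∧ (∀ O ∈ F, ∀ x ∈ O, x ∉ A) ∧
        (∀ O ∈ F, ∀ x ∈ O, ∀ y, touch X x y → y ∈ O ∨ y ∈ A) := by
      intro A F _ hodd _ hsub hadj
      refine ⟨fun O hO => Finset.card_pos.1 (hodd O hO).pos, ?_, ?_⟩
      · intro O hO x hx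
        exact (Finset.mem_sdiff.1 (hsub O hO hx)).2
      · intro O hO x hx y hxy
        by_cases h : x = y
        · left; rw [← h]; exact hx
        · exact hadj O hO x hx y (Finset.mem_univ y) ⟨h, hxy⟩
    rcases Nat.even_or_odd (n + n / 3) with hev | hod
    · obtain ⟨U, m, -, hU, hm⟩ := H168DD.tutte_berge (gr X) Finset.univ (n / 3)
        (by rw [Finset.card_univ, Fintype.card_fin]; exact hev) (by
          intro A F hA hodd hdisj hsub hadj
          obtain ⟨k1, k2, k3⟩ := key A F hA hodd hdisj hsub hadj
          exact fam_bound hNP hPT2 X A F k1 hdisj k2 k3)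
      refine ⟨U, m, hU, fun x hx => ?_⟩
      obtain ⟨h1, h2, h4⟩ := hm x (Finset.mem_sdiff.2 ⟨Finset.mem_univ x, hx⟩)
      exact ⟨(Finset.mem_sdiff.1 h1).2, h2, h4⟩
    · obtain ⟨U, m, -, hU, hm⟩ := H168DD.tutte_berge (gr X) Finset.univ (n / 3 - 1)
        (by
          rw [Finset.card_univ, Fintype.card_fin]
          obtain ⟨c, hc⟩ := hod
          exact ⟨c, by omega⟩) (by
          intro A F hA hodd hdisj hsub hadj
          obtain ⟨k1, k2, k3⟩ := key A F hA hodd hdisj hsub hadj
          have hb := fam_bound hNP hPT2 X A F k1 hdisj k2 k3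
          by_contra hlt
          have heq : F.card = A.card + n / 3 := by omega
          -- the rest
          set W : Finset (Fin n) := Finset.univ \ (A ∪ F.biUnion id) with hW
          have h1 : (F.biUnion id).card = ∑ O ∈ F, O.card :=
            Finset.card_biUnion (fun O hO O' hO' h => hdisj O hO O' hO' h)
          have h4 : Disjoint A (F.biUnion id) := by
            rw [Finset.disjoint_right]
            intro x hx
            obtain ⟨O, hO, hxO⟩ := Finset.mem_biUnion.1 hx
            exact k2 O hO x hxO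
          have h5 : W.card + (A.card + ∑ O ∈ F, O.card) = n := by
            have h6 := Finset.card_sdiff_add_card_eq_card
              (Finset.subset_univ (A ∪ F.biUnion id))
            rw [Finset.card_union_of_disjoint h4, h1, Finset.card_univ, Fintype.card_fin] at h6
            exact h6
          have h7 : (∑ O ∈ F, O.card) % 2 = F.card % 2 := by
            rw [Finset.sum_nat_mod, Finset.sum_congr rfl (fun O hO => Nat.odd_iff.1 (hodd O hO))]
            simp
          have hWodd : W.card % 2 = 1 := by
            obtain ⟨c, hc⟩ := hod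
            omega
          have hWne : W.Nonempty := by
            rw [← Finset.card_pos]; omega
          have hWF : W ∉ F := by
            intro h
            obtain ⟨x, hx⟩ := hWne
            have hx' := (Finset.mem_sdiff.1 hx).2
            exact hx' (Finset.mem_union_right _ (Finset.mem_biUnion.2 ⟨W, h, hx⟩))
          have hWd : ∀ O ∈ F, Disjoint W O := by
            intro O hO
            rw [Finset.disjoint_left]
            intro x hx hxO
            exact (Finset.mem_sdiff.1 hx).2
              (Finset.mem_union_right _ (Finset.mem_biUnion.2 ⟨O, hO, hxO⟩))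
          have hb2 := fam_bound hNP hPT2 X A (insert W F) (by
              intro O hO
              rcases Finset.mem_insert.1 hO with rfl | hO
              · exact hWne
              · exact k1 O hO) (by
              intro O hO O' hO' hne
              rcases Finset.mem_insert.1 hO with h | h <;>
                rcases Finset.mem_insert.1 hO' with h' | h'
              · exact absurd (h.trans h'.symm) hne
              · rw [h]; exact hWd O' h'
              · rw [h']; exact (hWd O h).symm
              · exact hdisj O h O' h' hne) (by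
              intro O hO x hx
              rcases Finset.mem_insert.1 hO with h | h
              · rw [h] at hx
                intro hxA
                exact (Finset.mem_sdiff.1 hx).2 (Finset.mem_union_left _ hxA)
              · exact k2 O h x hx) (by
              intro O hO x hx y hxy
              rcases Finset.mem_insert.1 hO with h | h
              · rw [h] at hx ⊢
                by_cases hyA : y ∈ A
                · exact Or.inr hyA
                · left
                  rw [hW, Finset.mem_sdiff, Finset.mem_union]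
                  refine ⟨Finset.mem_univ y, ?_⟩
                  rintro (h' | h')
                  · exact hyA h'
                  · obtain ⟨O', hO', hyO'⟩ := Finset.mem_biUnion.1 h'
                    have hxW := (Finset.mem_sdiff.1 hx).2
                    rcases k3 O' hO' y hyO' x (touch_symm hxy) with h'' | h''
                    · exact hxW (Finset.mem_union_right _
                        (Finset.mem_biUnion.2 ⟨O', hO', h''⟩))
                    · exact hxW (Finset.mem_union_left _ h'')
              · exact k3 O h x hx y hxy)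
          rw [Finset.card_insert_of_notMem hWF] at hb2
          omega)
      refine ⟨U, m, hU.trans (Nat.sub_le _ _), fun x hx => ?_⟩
      obtain ⟨h1, h2, h4⟩ := hm x (Finset.mem_sdiff.2 ⟨Finset.mem_univ x, hx⟩)
      exact ⟨(Finset.mem_sdiff.1 h1).2, h2, h4⟩
  -- the points
  have hpt : ∀ x : Fin n, ∃ z : Fin 3 → ℝ, x ∉ U →
      (∀ k, X.a k ⬝ᵥ z ≤ X.b k) ∧ X.a x ⬝ᵥ z = X.b x ∧ X.a (m x) ⬝ᵥ z = X.b (m x) := by
    intro x
    by_cases hx : x ∈ U
    · exact ⟨0, fun h => absurd hx h⟩
    · obtain ⟨z, hz⟩ := (hm x hx).2.2.2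
      exact ⟨z, fun _ => hz⟩
  choose z hz using hpt
  set M : Finset (Fin n) := (Finset.univ \ U).filter (fun x => x < m x) with hM
  have hMm : ∀ x, x ∈ M ↔ x ∉ U ∧ x < m x := by
    intro x
    rw [hM, Finset.mem_filter, Finset.mem_sdiff]
    simp
  have hM2 : 2 * M.card + U.card ≤ n := by
    have hinj : (M.image m).card = M.card := by
      apply Finset.card_image_of_injOn
      intro x hx y hy hxy
      have h1 := (hm x ((hMm x).1 hx).1).2.1
      have h2 := (hm y ((hMm y).1 hy).1).2.1
      have hxy' : m x = m y := hxy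
      rw [← h1, hxy', h2]
    have hd1 : Disjoint M (M.image m) := by
      rw [Finset.disjoint_left]
      intro x hx hx'
      obtain ⟨y, hy, hyx⟩ := Finset.mem_image.1 hx'
      have h1 := (hMm x).1 hx
      have h2 := (hMm y).1 hy
      have h4 := (hm y h2.1).2.1
      rw [hyx] at h4 h2
      rw [h4] at h1
      exact absurd (h1.2.trans h2.2) (lt_irrefl _)
    have hd2 : Disjoint (M ∪ M.image m) U := by
      rw [Finset.disjoint_left]
      intro x hx
      rcases Finset.mem_union.1 hx with h | h
      · exact ((hMm x).1 h).1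
      · obtain ⟨y, hy, rfl⟩ := Finset.mem_image.1 h
        exact (hm y ((hMm y).1 hy).1).1
    have h5 := Finset.card_le_univ ((M ∪ M.image m) ∪ U)
    rw [Finset.card_union_of_disjoint hd2, Finset.card_union_of_disjoint hd1, hinj,
      Fintype.card_fin] at h5
    omega
  refine ⟨U.image X.y ∪ M.image z, ?_, ?_, ?_⟩
  · have h1 := Finset.card_union_le (U.image X.y) (M.image z)
    have h2 := Finset.card_image_le (s := U) (f := X.y)
    have h4 := Finset.card_image_le (s := M) (f := z)
    omega
  · intro x hx
    rcases Finset.mem_union.1 hx with h | h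
    · obtain ⟨i, hi, rfl⟩ := Finset.mem_image.1 h
      refine ⟨fun k => ?_, i, X.hy i⟩
      by_cases hk : k = i
      · rw [hk]; exact (X.hy i).le
      · exact (X.hy2 i k hk).le
    · obtain ⟨i, hi, rfl⟩ := Finset.mem_image.1 h
      obtain ⟨h1, h2, -⟩ := hz i ((hMm i).1 hi).1
      exact ⟨h1, i, h2⟩
  · intro i
    by_cases hi : i ∈ U
    · exact ⟨X.y i, Finset.mem_union_left _ (Finset.mem_image_of_mem _ hi), X.hy i⟩
    · rcases lt_trichotomy i (m i) with h | h | h
      · exact ⟨z i, Finset.mem_union_right _ (Finset.mem_image_of_mem _ ((hMm i).2 ⟨hi, h⟩)),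
          (hz i hi).2.1⟩
      · exact absurd h (hm i hi).2.2.1
      · have h1 := (hm i hi).1
        have h2 := (hm i hi).2.1
        refine ⟨z (m i), Finset.mem_union_right _ (Finset.mem_image_of_mem _
          ((hMm (m i)).2 ⟨h1, by rw [h2]; exact h⟩)), ?_⟩
        have h4 := (hz (m i) h1).2.2
        rwa [h2] at h4

end Pool.Agent.X279.L3
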